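import Pool.Agent.Lib.BF40.AffField

namespace Pool.Agent.Results.MP_5a1544_gt.AffineField

/-- Non-central version: a Lipschitz field of mutually affinely equivalent sections of a convex
body, one for each direction and not parallel to it, consists of ellipsoids. -/
theorem result {E : Type*} [NormedAddCommGroup E] [InnerProductSpace ℝ E] [FiniteDimensional ℝ E]
    (K : Set E) (hK : Convex ℝ K) (hKc : IsCompact K)
    (X : Metric.sphere (0 : E) 1 → Submodule ℝ E) (a : Metric.sphere (0 : E) 1 → E) (L La : NNReal)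
    (hL : LipschitzWith L fun v => (X v).starProjection) (ha : LipschitzWith La a)
    (htr : ∀ v, (v : E) ∉ X v) (hin : ∀ v, ∃ x ∈ X v, a v + x ∈ interior K)
    (hiso : ∀ v w, ∃ (T : X v ≃ₗ[ℝ] X w) (z : X w), ∀ x : X v, a v + x ∈ K ↔ a w + (z + T x) ∈ K)
    (v : Metric.sphere (0 : E) 1) :
    ∃ (z : X v) (B : X v →ₗ[ℝ] X v →ₗ[ℝ] ℝ), (∀ x, x ≠ 0 → 0 < B x x) ∧
      ∀ x : X v, a v + (z + x) ∈ K ↔ B x x ≤ 1 :=
  Pool.Agent.Lib.BF40.aff_field hK hKc X a hL ha htr hin hiso v

end Pool.Agent.Results.MP_5a1544_gt.AffineField
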