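import Pool.Agent.Lib.BF40.Field

namespace Pool.Agent.Results.MP_5a1544_gt.FieldIsometric

/-- One subspace per direction suffices: a Lipschitz field of mutually linearly isometric subspaces
over the unit sphere, each missing its base point, consists of Euclidean subspaces. -/
theorem result {E : Type*} [NormedAddCommGroup E] [InnerProductSpace ℝ E] [FiniteDimensional ℝ E]
    (Φ : E → ℝ) (K : NNReal) (hK : LipschitzWith K Φ)
    (hhom : ∀ t : ℝ, 0 ≤ t → ∀ x, Φ (t • x) = t * Φ x) (hpos : ∀ x, x ≠ 0 → 0 < Φ x)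
    (X : Metric.sphere (0 : E) 1 → Submodule ℝ E) (L : NNReal)
    (hL : LipschitzWith L fun v => (X v).starProjection) (htr : ∀ v, (v : E) ∉ X v)
    (hiso : ∀ v w, ∃ T : X v ≃ₗ[ℝ] X w, ∀ x : X v, Φ (T x) = Φ x)
    (v : Metric.sphere (0 : E) 1) :
    ∃ B : X v →ₗ[ℝ] X v →ₗ[ℝ] ℝ, ∀ x : X v, Φ x ^ 2 = B x x :=
  Pool.Agent.Lib.BF40.field hK hhom hpos X hL htr hiso v

end Pool.Agent.Results.MP_5a1544_gt.FieldIsometric
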