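import Pool.Agent.Lib.LC.Final

/-! The local form of the isometric subspace problem for real and complex scalars, every `k ≥ 3`. -/

set_option autoImplicit false

namespace Pool.Agent.Results.MP_5a1544_gt.LocalBanachRC

universe u v

theorem result (𝕜 : Type) [RCLike 𝕜] {E : Type u} {V : Type v} [NormedAddCommGroup E] [NormedSpace 𝕜 E]
    [FiniteDimensional 𝕜 E] [NormedAddCommGroup V] [NormedSpace 𝕜 V] (hk : 3 ≤ Module.finrank 𝕜 E)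
    (U : Set (E →L[𝕜] V)) (hU : IsOpen U) (hc : IsPreconnected U) (hn : U.Nonempty)
    (hi : ∀ T ∈ U, Function.Injective T)
    (hiso : ∀ T ∈ U, ∀ T' ∈ U, Nonempty (T.range ≃ₗᵢ[𝕜] T'.range)) :
    (∃ B : V →ₗ⋆[𝕜] V →ₗ[𝕜] 𝕜, (∀ y z, starRingEnd 𝕜 (B y z) = B z y) ∧
      (∀ y, 0 ≤ RCLike.re (B y y)) ∧ ∀ T ∈ U, ∀ y ∈ T.range, ‖y‖ ^ 2 = RCLike.re (B y y)) ∨
    ∃ (P : V →ₗ[𝕜] E) (N : Seminorm 𝕜 E), (∀ x, N x = 0 → x = 0) ∧
      ∀ T ∈ U, ∀ y ∈ T.range, ‖y‖ = N (P y) := by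
  have h := Pool.Agent.Lib.LC.fin_main 𝕜 E V U hk hU hc hn hi fun T hT T' hT' => by
    obtain ⟨f⟩ := hiso T hT T' hT'
    let a := LinearEquiv.ofInjective (T : E →ₗ[𝕜] V) (hi T hT)
    let b := LinearEquiv.ofInjective (T' : E →ₗ[𝕜] V) (hi T' hT')
    refine ⟨a.trans (f.toLinearEquiv.trans b.symm), fun x => ?_⟩
    have e : T' (b.symm (f (a x))) = (f (a x) : V) :=
      congrArg Subtype.val (b.apply_symm_apply (f (a x)))
    exact (congrArg norm e).trans (f.norm_map (a x))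
  refine h.imp (fun ⟨B, h1, h2, h3⟩ => ⟨B, h1, h2, ?_⟩) fun ⟨P, N, h1, h2⟩ => ⟨P, N, h1, ?_⟩
  · rintro T hT _ ⟨x, rfl⟩
    exact h3 T hT x
  · rintro T hT _ ⟨x, rfl⟩
    exact h2 T hT x

end Pool.Agent.Results.MP_5a1544_gt.LocalBanachRC
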